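import Pool.Agent.Helper53.PT.GoalsA
import Pool.Agent.Helper65.Pq.C0

/-!
# MP_705522_gt, packet (HS): `G` as a sum over the integer nodes
-/

namespace Pool.Agent.Helper39.PT

open MeasureTheory Set Filter
open Pool.Agent.Helper53.PT
open Pool.Agent.Helper28.NO (IsLaw Ok Lf)

lemma hasSum_cos_unit {r : ℝ} (hr : r ∈ Icc (0 : ℝ) 1) :
    HasSum (fun i : ℕ => Real.cos (((i : ℝ) + 1) * (2 * Real.pi * r)) / ((i : ℝ) + 1) ^ 2)
      (Real.pi ^ 2 * (r ^ 2 - r + 1 / 6)) := by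
  have h := hasSum_one_div_nat_pow_mul_cos (k := 1) (by norm_num) hr
  have e : (Polynomial.map (algebraMap ℚ ℝ) (Polynomial.bernoulli (2 * 1))).eval r =
      r ^ 2 - r + 1 / 6 := by
    simp only [Polynomial.bernoulli, Finset.sum_range_succ, Finset.sum_range_zero]
    simp [Polynomial.eval_add, bernoulli_one, bernoulli_two, Nat.choose]
    ring
  rw [e] at h
  have h2 := (hasSum_nat_add_iff' 1).2 h
  simp only [Finset.range_one, Finset.sum_singleton, Nat.cast_zero] at h2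
  have e2 : (-1 : ℝ) ^ (1 + 1) * (2 * Real.pi) ^ (2 * 1) / 2 / ((2 * 1).factorial : ℝ) *
      (r ^ 2 - r + 1 / 6) - 1 / 0 ^ (2 * 1) * Real.cos (2 * Real.pi * 0 * r) =
      Real.pi ^ 2 * (r ^ 2 - r + 1 / 6) := by
    have : ((2 * 1).factorial : ℝ) = 2 := by norm_num [Nat.factorial]
    rw [this, zero_pow (by norm_num), div_zero, zero_mul]
    ring
  rw [e2] at h2
  refine (Iff.of_eq ?_).1 h2
  congr 1
  ext i
  have h3 : 2 * Real.pi * ((i + 1 : ℕ) : ℝ) * r = ((i : ℝ) + 1) * (2 * Real.pi * r) := by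
    push_cast; ring
  rw [h3]
  push_cast
  ring

/-- The series. -/
noncomputable def SS (x : ℝ) : ℝ := ∑' i : ℕ, Real.cos (((i : ℝ) + 1) * x) / ((i : ℝ) + 1) ^ 2

/-- For `y ≥ 0`, `k = ⌊y⌋`, `r = y - k`: the value of the series at `2π y`. -/
lemma hasSum_cos_gen {y : ℝ} (hy : 0 ≤ y) :
    HasSum (fun i : ℕ => Real.cos (((i : ℝ) + 1) * (2 * Real.pi * y)) / ((i : ℝ) + 1) ^ 2)
      (Real.pi ^ 2 * ((y - ⌊y⌋₊) ^ 2 - (y - ⌊y⌋₊) + 1 / 6)) := by
  have h0 : 0 ≤ y - ⌊y⌋₊ := sub_nonneg.2 (Nat.floor_le hy)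
  have h1 : y - ⌊y⌋₊ ≤ 1 := by linarith [Nat.lt_floor_add_one y]
  have h := hasSum_cos_unit (r := y - ⌊y⌋₊) ⟨h0, h1⟩
  convert h using 3 with i
  rw [← Real.cos_sub_nat_mul_two_pi _ ((i + 1) * ⌊y⌋₊)]
  congr 1
  push_cast
  ring

lemma summable_inv_sq : Summable (fun i : ℕ => 1 / ((i : ℝ) + 1) ^ 2) := by
  have h := (Real.summable_one_div_nat_pow (p := 2)).2 (by norm_num)
  have := (summable_nat_add_iff 1).2 h
  simpa using this

lemma norm_term_le (x : ℝ) (i : ℕ) :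
    ‖Real.cos (((i : ℝ) + 1) * x) / ((i : ℝ) + 1) ^ 2‖ ≤ 1 / ((i : ℝ) + 1) ^ 2 := by
  rw [Real.norm_eq_abs, abs_div, abs_of_pos (by positivity : (0 : ℝ) < ((i : ℝ) + 1) ^ 2)]
  exact div_le_div_of_nonneg_right (Real.abs_cos_le_one _) (by positivity)

lemma continuous_SS : Continuous SS :=
  continuous_tsum (fun i => by fun_prop) summable_inv_sq fun i x => norm_term_le x i

lemma bound_D (x : ℝ) : 0 ≤ Real.pi ^ 2 / 6 + x ^ 2 / 4 - SS x - Real.pi * |x| / 2 ∧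
    Real.pi ^ 2 / 6 + x ^ 2 / 4 - SS x - Real.pi * |x| / 2 ≤
      2 * Real.pi ^ 2 * Real.exp (-(4 * Real.pi ^ 2)) * Real.cosh (2 * Real.pi * x) := by
  wlog hx : 0 ≤ x with H
  · have h := H (-x) (by linarith)
    have e : SS (-x) = SS x := by
      unfold SS
      congr 1
      ext i
      rw [mul_neg, Real.cos_neg]
    rw [e, abs_neg, mul_neg, Real.cosh_neg, neg_sq] at h
    exact h
  have hpi := Real.pi_pos
  set y : ℝ := x / (2 * Real.pi) with hy
  have hy0 : 0 ≤ y := by positivity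
  have hxy : x = 2 * Real.pi * y := by
    rw [hy]; field_simp
  have hS : SS x = Real.pi ^ 2 * ((y - ⌊y⌋₊) ^ 2 - (y - ⌊y⌋₊) + 1 / 6) := by
    unfold SS
    rw [hxy]
    exact (hasSum_cos_gen hy0).tsum_eq
  have h0 : 0 ≤ y - ⌊y⌋₊ := sub_nonneg.2 (Nat.floor_le hy0)
  set k : ℕ := ⌊y⌋₊ with hk
  have e : Real.pi ^ 2 / 6 + x ^ 2 / 4 - SS x - Real.pi * |x| / 2 =
      Real.pi ^ 2 * (k * (k - 1 + 2 * (y - k))) := by
    rw [abs_of_nonneg hx, hS]
    rw [hxy]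
    ring
  rw [e]
  have hc : 0 < Real.cosh (2 * Real.pi * x) := Real.cosh_pos _
  rcases Nat.eq_zero_or_pos k with h | h
  · rw [h]
    simp only [Nat.cast_zero, zero_mul, mul_zero]
    exact ⟨le_refl _, by positivity⟩
  · have hk1 : (1 : ℝ) ≤ k := by exact_mod_cast h
    have hy1 : 1 ≤ y := by linarith
    refine ⟨by
      have : 0 ≤ (k : ℝ) - 1 := by linarith
      positivity, ?_⟩
    have h1 : (k : ℝ) * (k - 1 + 2 * (y - k)) ≤ y ^ 2 := by nlinarith
    -- `y ≤ exp(2π²(y-1))`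
    have h2 : y ≤ Real.exp (2 * Real.pi ^ 2 * (y - 1)) := by
      have h3 := Real.add_one_le_exp (2 * Real.pi ^ 2 * (y - 1))
      have h4 : 1 ≤ 2 * Real.pi ^ 2 := by nlinarith [Real.pi_gt_three]
      nlinarith
    have h5 : y ^ 2 ≤ Real.exp (4 * Real.pi ^ 2 * (y - 1)) := by
      calc y ^ 2 ≤ (Real.exp (2 * Real.pi ^ 2 * (y - 1))) ^ 2 := by gcongr
        _ = _ := by rw [← Real.exp_nat_mul]; congr 1; push_cast; ring
    have h6 : Real.exp (4 * Real.pi ^ 2 * y) ≤ 2 * Real.cosh (2 * Real.pi * x) := by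
      rw [Real.cosh_eq]
      have : 2 * Real.pi * x = 4 * Real.pi ^ 2 * y := by rw [hxy]; ring
      rw [this]
      have := Real.exp_pos (-(4 * Real.pi ^ 2 * y))
      linarith
    calc Real.pi ^ 2 * (k * (k - 1 + 2 * (y - k))) ≤ Real.pi ^ 2 * y ^ 2 := by gcongr
      _ ≤ Real.pi ^ 2 * Real.exp (4 * Real.pi ^ 2 * (y - 1)) := by gcongr
      _ = Real.pi ^ 2 * Real.exp (-(4 * Real.pi ^ 2)) * Real.exp (4 * Real.pi ^ 2 * y) := by
        rw [mul_assoc (Real.pi ^ 2), ← Real.exp_add]; congr 2; ring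
      _ ≤ Real.pi ^ 2 * Real.exp (-(4 * Real.pi ^ 2)) * (2 * Real.cosh (2 * Real.pi * x)) := by
        gcongr
      _ = _ := by ring

lemma num_bound : 2 * Real.pi ^ 2 * Real.exp (-(2 * Real.pi ^ 2)) ≤ 1e-7 := by
  have h1 := Real.pi_gt_d4
  have h2 := Real.pi_lt_d4
  have h3 : 19.7379 ≤ 2 * Real.pi ^ 2 := by nlinarith
  have h4 : 2 * Real.pi ^ 2 ≤ 19.7402 := by nlinarith
  have h5 : Real.exp (-(2 * Real.pi ^ 2)) ≤ Real.exp (-19.7379) := Real.exp_le_exp.2 (by linarith)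
  have h6 : Real.exp (-19.7379) ≤ 5e-9 := by
    rw [Real.exp_neg]
    rw [inv_le_comm₀ (Real.exp_pos _) (by norm_num)]
    have h7 : Real.exp 19.7379 = Real.exp 1 ^ 19 * Real.exp 0.7379 := by
      rw [← Real.exp_nat_mul, ← Real.exp_add]; norm_num
    rw [h7]
    have h8 : (2.7182818283 : ℝ) ^ 19 ≤ Real.exp 1 ^ 19 := by
      gcongr
      exact Real.exp_one_gt_d9.le
    have h9 : (1.7379 : ℝ) ≤ Real.exp 0.7379 := by
      have := Real.add_one_le_exp (0.7379 : ℝ)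
      linarith
    calc (5e-9 : ℝ)⁻¹ ≤ (2.7182818283 : ℝ) ^ 19 * 1.7379 := by norm_num
      _ ≤ _ := by gcongr
  calc 2 * Real.pi ^ 2 * Real.exp (-(2 * Real.pi ^ 2)) ≤ 19.7402 * 5e-9 := by
        gcongr
        exact h5.trans h6
    _ ≤ 1e-7 := by norm_num

theorem gHS : GHS := by
  intro hLP θ h0 h1 n t ht
  obtain ⟨ρ, hprob, hcos, hi2, he2, hch⟩ := hLP θ h0 h1 (Fin n) Finset.univ t (fun i _ => ht.1 i)
  rw [ht.2] at he2 hch
  have hPP : ∀ ξ, PP θ t ξ = ∫ x, Real.cos (ξ * x) ∂ρ := hcos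
  have hint : Integrable (fun x : ℝ => x) ρ := by
    refine Integrable.mono' ((integrable_const (1 : ℝ)).add hi2) measurable_id.aestronglyMeasurable
      (Eventually.of_forall fun x => ?_)
    simp only [Pi.add_apply]
    rw [Real.norm_eq_abs]
    nlinarith [sq_abs x, sq_nonneg (|x| - 1)]
  have hlaw : IsLaw (PP θ t) ρ := ⟨hprob, hint, hPP⟩
  have hok := hlaw.ok
  have habs := hok.abs_le
  have hG : G θ t = Real.pi / 2 * ∫ x, |x| ∂ρ := by
    rw [← hlaw.Lf_eq]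
    unfold G Lf
    rw [Helper65.Pq.c0_eq]
    field_simp
  have hsum : Summable (fun i : ℕ => PP θ t (i + 1) / ((i : ℝ) + 1) ^ 2) := by
    refine Summable.of_norm_bounded summable_inv_sq fun i => ?_
    rw [Real.norm_eq_abs, abs_div, abs_of_pos (by positivity : (0 : ℝ) < ((i : ℝ) + 1) ^ 2)]
    exact div_le_div_of_nonneg_right (habs _) (by positivity)
  -- the exchange of sum and integral
  have hci : ∀ ξ, Integrable (fun x : ℝ => Real.cos (ξ * x)) ρ := fun ξ =>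
    Integrable.mono' (integrable_const (1 : ℝ)) (by fun_prop)
      (Eventually.of_forall fun x => by rw [Real.norm_eq_abs]; exact Real.abs_cos_le_one _)
  have hSi : Integrable SS ρ ∧ ∫ x, SS x ∂ρ = ∑' i : ℕ, PP θ t (i + 1) / ((i : ℝ) + 1) ^ 2 := by
    refine ⟨Integrable.mono' (integrable_const (∑' i : ℕ, 1 / ((i : ℝ) + 1) ^ 2))
      continuous_SS.aestronglyMeasurable (Eventually.of_forall fun x => ?_), ?_⟩
    · exact tsum_of_norm_bounded summable_inv_sq.hasSum (fun i => norm_term_le x i)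
    · have hF : ∀ i : ℕ, Integrable (fun x : ℝ => Real.cos (((i : ℝ) + 1) * x) / ((i : ℝ) + 1) ^ 2) ρ :=
        fun i => (hci _).div_const _
      have h := hasSum_integral_of_summable_integral_norm hF (by
        refine Summable.of_nonneg_of_le (fun i => integral_nonneg fun x => norm_nonneg _)
          (fun i => ?_) summable_inv_sq
        calc ∫ x, ‖Real.cos (((i : ℝ) + 1) * x) / ((i : ℝ) + 1) ^ 2‖ ∂ρ
            ≤ ∫ _x, 1 / ((i : ℝ) + 1) ^ 2 ∂ρ :=
              integral_mono (hF i).norm (integrable_const _) fun x => norm_term_le x i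
          _ = _ := by simp)
      have e := h.tsum_eq
      unfold SS
      rw [← e]
      congr 1
      ext i
      rw [integral_div, hPP]
  obtain ⟨hSi, hSe⟩ := hSi
  refine ⟨hok.int, habs, hsum, ?_⟩
  rw [← hSe, hG]
  have hA : Integrable (fun x : ℝ => x ^ 2 / 4) ρ := hi2.div_const 4
  have hB : Integrable (fun x : ℝ => Real.pi ^ 2 / 6 + x ^ 2 / 4) ρ := (integrable_const _).add hA
  have hB' : Integrable (fun x : ℝ => Real.pi ^ 2 / 6 + x ^ 2 / 4 - SS x) ρ := hB.sub hSi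
  have hC : Integrable (fun x : ℝ => Real.pi * |x| / 2) ρ :=
    (hint.abs.const_mul Real.pi).div_const 2
  have hD : Integrable (fun x => Real.pi ^ 2 / 6 + x ^ 2 / 4 - SS x - Real.pi * |x| / 2) ρ :=
    hB'.sub hC
  have hDe : ∫ x, (Real.pi ^ 2 / 6 + x ^ 2 / 4 - SS x - Real.pi * |x| / 2) ∂ρ =
      Real.pi ^ 2 / 6 + 1 / 4 - ∫ x, SS x ∂ρ - Real.pi / 2 * ∫ x, |x| ∂ρ := by
    rw [integral_sub hB' hC, integral_sub hB hSi,
      integral_add (integrable_const (Real.pi ^ 2 / 6)) hA, integral_div 4, integral_div 2,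
      integral_const_mul, he2]
    simp
    ring
  have hD0 : 0 ≤ ∫ x, (Real.pi ^ 2 / 6 + x ^ 2 / 4 - SS x - Real.pi * |x| / 2) ∂ρ :=
    integral_nonneg fun x => (bound_D x).1
  have hD1 : ∫ x, (Real.pi ^ 2 / 6 + x ^ 2 / 4 - SS x - Real.pi * |x| / 2) ∂ρ ≤ 1e-7 := by
    have hc := hch (2 * Real.pi)
    calc ∫ x, (Real.pi ^ 2 / 6 + x ^ 2 / 4 - SS x - Real.pi * |x| / 2) ∂ρ
        ≤ ∫ x, 2 * Real.pi ^ 2 * Real.exp (-(4 * Real.pi ^ 2)) * Real.cosh (2 * Real.pi * x) ∂ρ :=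
          integral_mono hD (hc.1.const_mul _) fun x => (bound_D x).2
      _ = 2 * Real.pi ^ 2 * Real.exp (-(4 * Real.pi ^ 2)) *
          ∫ x, Real.cosh (2 * Real.pi * x) ∂ρ := integral_const_mul _ _
      _ ≤ 2 * Real.pi ^ 2 * Real.exp (-(4 * Real.pi ^ 2)) *
          Real.exp ((2 * Real.pi) ^ 2 * 1 / 2) := by
          have := hc.2
          gcongr
      _ = 2 * Real.pi ^ 2 * Real.exp (-(2 * Real.pi ^ 2)) := by
          rw [mul_assoc, ← Real.exp_add]; congr 2; ring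
      _ ≤ 1e-7 := num_bound
  rw [hDe] at hD0 hD1
  constructor
  · linarith
  · linarith

end Pool.Agent.Helper39.PT
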