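import Pool.Agent.Helper53.PT.GoalsB2
import Pool.Agent.Helper93.PT.KTAIL

/-!
# MP_705522_gt, `q ∈ (2,4)`: the tail of the integral `K`, improved form (`GKTAIL2`)
-/

namespace Pool.Agent.Helper39.PT

open MeasureTheory Set Filter Topology
open Pool.Agent.Helper53.PT Pool.Agent.Helper93.PT

/-- slopes of a concave function decrease -/
theorem slope_anti {I : ℝ → ℝ} (hc : ConcaveOn ℝ (Ici 0) I) {x y X Y : ℝ} (hY : 0 ≤ Y)
    (hYy : Y ≤ y) (hXx : X ≤ x) (hYX : Y < X) (hyx : y < x) :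
    (I x - I y) / (x - y) ≤ (I X - I Y) / (X - Y) := by
  have hv := hc.neg
  have hYm : Y ∈ Ici (0 : ℝ) := hY
  have hXm : X ∈ Ici (0 : ℝ) := le_trans hY hYX.le
  have hym : y ∈ Ici (0 : ℝ) := le_trans hY hYy
  have hxm : x ∈ Ici (0 : ℝ) := le_trans (le_trans hY hYy) hyx.le
  have hYx : Y < x := lt_of_lt_of_le hYX hXx
  have h1 := hv.secant_mono hYm hXm hxm hYX.ne' hYx.ne' hXx
  have h2 := hv.secant_mono hxm hYm hym hYx.ne hyx.ne hYy
  simp only [Pi.neg_apply] at h1 h2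
  have e1 : (-I X - -I Y) / (X - Y) = -((I X - I Y) / (X - Y)) := by ring
  have e2 : (-I x - -I Y) / (x - Y) = -((I x - I Y) / (x - Y)) := by ring
  have e3 : (-I Y - -I x) / (Y - x) = -((I x - I Y) / (x - Y)) := by
    rw [← neg_sub x Y, div_neg]
    ring
  have e4 : (-I y - -I x) / (y - x) = -((I x - I y) / (x - y)) := by
    rw [← neg_sub x y, div_neg]
    ring
  rw [e1, e2] at h1
  rw [e3, e4] at h2
  linarith

/-- the majorant of the variation -/
theorem var_le {I : ℝ → ℝ} {S D a b a1 b1 ξ ξs : ℝ} (hc : ConcaveOn ℝ (Ici 0) I) (h0 : I 0 = 0)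
    (hm : MonotoneOn I (Ici 0)) (hb : ∀ x, 0 ≤ x → I x ≤ S) (ha1 : 0 < a1) (ha : a1 ≤ a)
    (hb1 : 0 ≤ b1) (hbb : b1 ≤ b) (hba : b < a) (hs : 0 < ξs) (hξ : ξs ≤ ξ) (hD : 0 ≤ D)
    (h : S ≤ D * a1 ∨ (b1 < a1 ∧ S - I (b1 * ξs ^ 2) ≤ D * (a1 - b1))) :
    I (a * ξ ^ 2) - I (b * ξ ^ 2) ≤ D * (a - b) := by
  have hξ0 : 0 < ξ := lt_of_lt_of_le hs hξ
  have hX : 0 < ξ ^ 2 := by positivity
  have hapos : 0 < a := lt_of_lt_of_le ha1 ha
  have hb0 : 0 ≤ b := le_trans hb1 hbb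
  have hyx : b * ξ ^ 2 < a * ξ ^ 2 := mul_lt_mul_of_pos_right hba hX
  have hxy : a * ξ ^ 2 - b * ξ ^ 2 = (a - b) * ξ ^ 2 := by ring
  rcases h with h | ⟨hlt, h⟩
  · have h1 := slope_le hc h0 hb (mul_nonneg hb0 hX.le) hyx
    have e1 : (a * ξ ^ 2 - b * ξ ^ 2) / (a * ξ ^ 2) = (a - b) / a := by
      field_simp
    rw [e1] at h1
    have h2 : (a - b) / a * S ≤ (a - b) / a * (D * a1) :=
      mul_le_mul_of_nonneg_left h (div_nonneg (by linarith) hapos.le)
    have h3 : (a - b) / a * (D * a1) ≤ (a - b) / a * (D * a) :=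
      mul_le_mul_of_nonneg_left (mul_le_mul_of_nonneg_left ha hD)
        (div_nonneg (by linarith) hapos.le)
    have h4 : (a - b) / a * (D * a) = D * (a - b) := by
      field_simp
    linarith
  · have hYX : b1 * ξ ^ 2 < a1 * ξ ^ 2 := mul_lt_mul_of_pos_right hlt hX
    have h1 := slope_anti hc (mul_nonneg hb1 hX.le) (mul_le_mul_of_nonneg_right hbb hX.le)
      (mul_le_mul_of_nonneg_right ha hX.le) hYX hyx
    have h2 : I (a1 * ξ ^ 2) ≤ S := hb _ (mul_nonneg ha1.le hX.le)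
    have h3 : I (b1 * ξs ^ 2) ≤ I (b1 * ξ ^ 2) := by
      apply hm
      · exact mul_nonneg hb1 (by positivity)
      · exact mul_nonneg hb1 hX.le
      · exact mul_le_mul_of_nonneg_left (pow_le_pow_left₀ hs.le hξ 2) hb1
    have e2 : a1 * ξ ^ 2 - b1 * ξ ^ 2 = (a1 - b1) * ξ ^ 2 := by ring
    rw [hxy, e2] at h1
    have hp1 : 0 < (a - b) * ξ ^ 2 := mul_pos (by linarith) hX
    have hp2 : 0 < (a1 - b1) * ξ ^ 2 := mul_pos (by linarith) hX
    have h4 : (I (a1 * ξ ^ 2) - I (b1 * ξ ^ 2)) / ((a1 - b1) * ξ ^ 2) ≤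
        D * (a1 - b1) / ((a1 - b1) * ξ ^ 2) :=
      div_le_div_of_nonneg_right (by linarith) hp2.le
    have h5 : D * (a1 - b1) / ((a1 - b1) * ξ ^ 2) = D / ξ ^ 2 := by
      have : a1 - b1 ≠ 0 := by linarith
      field_simp
    rw [h5] at h4
    have h6 := le_trans h1 h4
    rw [div_le_iff₀ hp1] at h6
    have h7 : D / ξ ^ 2 * ((a - b) * ξ ^ 2) = D * (a - b) := by
      field_simp
    linarith

theorem kr_le2 {θ S1 S2 : ℝ} {I1 I2 : ℝ → ℝ} (hM : FM θ I1 I2 S1 S2) {x y F0 F1 V1 V2 : ℝ}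
    (hy : 0 ≤ y) (hyx : y < x) (h0 : |f0 θ x| ≤ F0) (h1 : |f1 θ x| ≤ F1)
    (v1 : I1 x - I1 y ≤ V1) (v2 : I2 x - I2 y ≤ V2) :
    |kr θ x y| ≤ F1 * V1 / 2 + F0 * V2 := by
  have e : kr θ x y = f1 θ x * (f0 θ y - f0 θ x) - f0 θ x * (f1 θ y - f1 θ x) := by
    unfold kr; ring
  have a1 := hM.h1 x y hy hyx.le
  have a2 := hM.h2 x y hy hyx.le
  have c1 : |f0 θ y - f0 θ x| ≤ V1 / 2 := by linarith
  have c2 : |f1 θ y - f1 θ x| ≤ V2 := by linarith
  rw [e]
  calc |f1 θ x * (f0 θ y - f0 θ x) - f0 θ x * (f1 θ y - f1 θ x)|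
      ≤ |f1 θ x * (f0 θ y - f0 θ x)| + |f0 θ x * (f1 θ y - f1 θ x)| := abs_sub _ _
    _ = |f1 θ x| * |f0 θ y - f0 θ x| + |f0 θ x| * |f1 θ y - f1 θ x| := by rw [abs_mul, abs_mul]
    _ ≤ F1 * (V1 / 2) + F0 * V2 := by
        have p1 := mul_le_mul h1 c1 (abs_nonneg _) (le_trans (abs_nonneg _) h1)
        have p2 := mul_le_mul h0 c2 (abs_nonneg _) (le_trans (abs_nonneg _) h0)
        linarith
    _ = F1 * V1 / 2 + F0 * V2 := by ring

theorem gKTAIL2 : GKTAIL2 := by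
  intro hSIG θ z m xW xD yN g c0 c1 c2 S1 S2 I1 I2 hA hP hM hc0 hc1 hg hf n t i j a1 b1 ξs Ra d0 d1 D1
    D2 T ht hji hl ha1 hai hb1 hbj hRa hRi hξs h64 hd0 hd1 hd0p hDD1 hDD2 hDp1 hDp2 hp hT
  have hθ0 : 0 < θ := by linarith [hA.th0]
  have hθ1 := hA.th1
  have hg0 := hP.g0
  have hij : j ≠ i := by
    rintro rfl
    exact lt_irrefl _ hji
  have ha : 0 < t i := lt_of_lt_of_le ha1 hai
  have hb : 0 ≤ t j := ht.1 j
  have hS1 : 0 ≤ S1 := by
    have := hM.b1 0 le_rfl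
    rwa [hM.i1] at this
  have hS2 : 0 ≤ S2 := by
    have := hM.b2 0 le_rfl
    rwa [hM.i2] at this
  set p : ℝ := 2 * g * (1 + Ra) with hpdef
  set xs : ℝ := a1 * ξs ^ 2 with hxs
  have hxs0 : 0 < xs := by linarith
  have hd1p : 0 ≤ d1 := le_trans (mul_nonneg hc1 (Real.rpow_nonneg (by positivity) _)) hd1
  set C : ℝ := (d1 * D1 / 2 + d0 * D2) * d0 ^ Ra with hC
  have hC0 : 0 ≤ C := by
    rw [hC]
    have : 0 ≤ d0 ^ Ra := Real.rpow_nonneg hd0p.le _
    positivity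
  have hc01 : c0 < 1 := by
    have : Real.log c0 < 0 := by linarith
    exact (Real.log_neg_iff hc0).1 this
  have key : ∀ ξ ∈ Ioi ξs, |KI θ t i j ξ| ≤ (t i - t j) * C * (ξs / ξ) ^ p := by
    intro ξ hξ
    have hξ' : ξs < ξ := hξ
    have hξ0 : 0 < ξ := lt_trans hξs hξ'
    set r : ℝ := ξs / ξ with hr
    have hr0 : 0 < r := div_pos hξs hξ0
    have hr1 : r ≤ 1 := by
      rw [hr, div_le_one hξ0]; exact hξ'.le
    set x : ℝ := t i * ξ ^ 2 with hx
    set y : ℝ := t j * ξ ^ 2 with hy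
    have hx0 : 0 < x := by positivity
    have hy0 : 0 ≤ y := by positivity
    have hyx : y < x := by
      rw [hx, hy]
      exact mul_lt_mul_of_pos_right hji (by positivity)
    have hxx : xs ≤ x * r ^ 2 := by
      have : x * r ^ 2 = t i * ξs ^ 2 := by
        rw [hx, hr]; field_simp
      rw [this, hxs]
      exact mul_le_mul_of_nonneg_right hai (by positivity)
    have hxx1 : xs ≤ x := by
      have : x * r ^ 2 ≤ x * 1 := mul_le_mul_of_nonneg_left (by nlinarith) hx0.le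
      linarith
    have hx64 : 64 ≤ x := by linarith
    -- `64/x ≤ (64/xs) r²`
    have hq : 64 / x ≤ 64 / xs * r ^ 2 := by
      rw [div_mul_eq_mul_div, div_le_div_iff₀ hx0 hxs0]
      nlinarith
    have hq0 : 0 < 64 / x := by positivity
    have hq1 : 64 / x ≤ 1 := by
      rw [div_le_one hx0]; exact hx64
    have hsplit : ∀ s : ℝ, 0 ≤ s → (64 / x) ^ s ≤ (64 / xs) ^ s * r ^ (2 * s) := by
      intro s hs
      have h1 := Real.rpow_le_rpow hq0.le hq hs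
      rw [Real.mul_rpow (by positivity) (by positivity)] at h1
      have h2 : (r ^ 2) ^ s = r ^ (2 * s) := by
        rw [Real.rpow_mul hr0.le]
        norm_num
      rwa [h2] at h1
    set D : ℝ := c0 * (64 / x) ^ g with hD
    have hDp : 0 < D := mul_pos hc0 (Real.rpow_pos_of_pos hq0 _)
    have hD1 : D ≤ 1 := by
      have : (64 / x) ^ g ≤ 1 := Real.rpow_le_one hq0.le hq1 (by linarith)
      have h2 : c0 * (64 / x) ^ g ≤ 1 * 1 := mul_le_mul hc01.le this (Real.rpow_nonneg hq0.le _) (by norm_num)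
      rw [hD]; linarith
    have hDr : D ≤ d0 * r ^ (2 * g) := by
      calc D ≤ c0 * ((64 / xs) ^ g * r ^ (2 * g)) := mul_le_mul_of_nonneg_left (hsplit g (by linarith)) hc0.le
        _ = c0 * (64 / xs) ^ g * r ^ (2 * g) := by ring
        _ ≤ d0 * r ^ (2 * g) := mul_le_mul_of_nonneg_right hd0 (Real.rpow_nonneg hr0.le _)
    have hF0 : |f0 θ x| ≤ d0 * r ^ (2 * g) := le_trans (hP.p0 x hx64) hDr
    have hF1 : |f1 θ x| ≤ d1 * r ^ (2 * g) := by
      calc |f1 θ x| ≤ c1 * (64 / x) ^ (g + 1) := hP.p1 x hx64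
        _ ≤ c1 * ((64 / xs) ^ (g + 1) * r ^ (2 * (g + 1))) :=
            mul_le_mul_of_nonneg_left (hsplit (g + 1) (by linarith)) hc1
        _ = c1 * (64 / xs) ^ (g + 1) * r ^ (2 * (g + 1)) := by ring
        _ ≤ d1 * r ^ (2 * (g + 1)) := mul_le_mul_of_nonneg_right hd1 (Real.rpow_nonneg hr0.le _)
        _ ≤ d1 * r ^ (2 * g) := by
            refine mul_le_mul_of_nonneg_left ?_ hd1p
            exact Real.rpow_le_rpow_of_exponent_ge hr0 hr1 (by linarith)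
    have hkr : |kr θ x y| ≤ (t i - t j) * ((d1 * D1 / 2 + d0 * D2) * r ^ (2 * g)) := by
      have v1 := var_le hM.c1 hM.i1 hM.m1 hM.b1 ha1 hai hb1 hbj hji hξs hξ'.le hDp1 hDD1
      have v2 := var_le hM.c2 hM.i2 hM.m2 hM.b2 ha1 hai hb1 hbj hji hξs hξ'.le hDp2 hDD2
      have h1 := kr_le2 hM hy0 hyx hF0 hF1 v1 v2
      refine le_trans h1 (le_of_eq ?_)
      ring
    have hprod : |∏ l ∈ (Finset.univ.erase i).erase j, f0 θ (t l * ξ ^ 2)| ≤ d0 ^ Ra * r ^ (2 * g * Ra) := by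
      have hs := (hSIG θ).2.2 g c0 c1 c2 hP hc0 hg hf x hx64
      have h1 := prod_le (θ := θ) t ((Finset.univ.erase i).erase j) (X := ξ ^ 2) (x := x)
        (c := Real.log D / x) hs (by
          intro l _
          refine ⟨mul_nonneg (ht.1 l) (by positivity), ?_⟩
          exact mul_le_mul_of_nonneg_right (hl l).1 (by positivity))
      rw [sum_erase_two ht hij] at h1
      have hlog : Real.log D ≤ 0 := Real.log_nonpos hDp.le hD1
      have h2 : Real.log D / x * ((1 - t i - t j) * ξ ^ 2) ≤ Real.log D * Ra := by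
        have e1 : Real.log D / x * ((1 - t i - t j) * ξ ^ 2) = Real.log D * ((1 - t i - t j) / t i) := by
          rw [hx]; field_simp
        rw [e1]
        have h3 : Ra ≤ (1 - t i - t j) / t i := by
          rw [le_div_iff₀ ha]; exact hRi
        exact mul_le_mul_of_nonpos_left h3 hlog
      calc |∏ l ∈ (Finset.univ.erase i).erase j, f0 θ (t l * ξ ^ 2)|
          ≤ Real.exp (Real.log D / x * ((1 - t i - t j) * ξ ^ 2)) := h1
        _ ≤ Real.exp (Real.log D * Ra) := Real.exp_le_exp.2 h2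
        _ = D ^ Ra := (Real.rpow_def_of_pos hDp _).symm
        _ ≤ (d0 * r ^ (2 * g)) ^ Ra := Real.rpow_le_rpow hDp.le hDr hRa
        _ = d0 ^ Ra * r ^ (2 * g * Ra) := by
            rw [Real.mul_rpow hd0p.le (Real.rpow_nonneg hr0.le _), ← Real.rpow_mul hr0.le]
    have hrp : r ^ p = r ^ (2 * g) * r ^ (2 * g * Ra) := by
      rw [← Real.rpow_add hr0, hpdef]
      congr 1; ring
    have hKI : KI θ t i j ξ = kr θ x y * ∏ l ∈ (Finset.univ.erase i).erase j, f0 θ (t l * ξ ^ 2) := rfl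
    rw [hKI, abs_mul, hrp]
    calc |kr θ x y| * |∏ l ∈ (Finset.univ.erase i).erase j, f0 θ (t l * ξ ^ 2)|
        ≤ ((t i - t j) * ((d1 * D1 / 2 + d0 * D2) * r ^ (2 * g))) * (d0 ^ Ra * r ^ (2 * g * Ra)) :=
          mul_le_mul hkr hprod (abs_nonneg _) (le_trans (abs_nonneg _) hkr)
      _ = (t i - t j) * C * (r ^ (2 * g) * r ^ (2 * g * Ra)) := by
          rw [hC]; ring
  have hcont : Continuous (KI θ t i j) := by
    have e : KI θ t i j = fun ξ => (f1 θ (t i * ξ ^ 2) * f0 θ (t j * ξ ^ 2) -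
        f0 θ (t i * ξ ^ 2) * f1 θ (t j * ξ ^ 2)) * ∏ l ∈ (Finset.univ.erase i).erase j, f0 θ (t l * ξ ^ 2) := rfl
    have k0 := continuous_f0 hθ0 hθ1
    have k1 := continuous_f1 hθ0 hθ1
    rw [e]
    fun_prop
  have htail := tail_int hξs hp
  have hdom : IntegrableOn (fun ξ : ℝ => (t i - t j) * C * (ξs / ξ) ^ p) (Ioi ξs) := htail.1.const_mul _
  have hint : IntegrableOn (KI θ t i j) (Ioi ξs) := by
    refine Integrable.mono' hdom hcont.aestronglyMeasurable ?_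
    refine (ae_restrict_iff' measurableSet_Ioi).2 (Filter.Eventually.of_forall fun ξ hξ => ?_)
    rw [Real.norm_eq_abs]
    exact key ξ hξ
  refine ⟨hint, ?_⟩
  have hnorm : ‖∫ ξ in Ioi ξs, KI θ t i j ξ‖ ≤ ∫ ξ in Ioi ξs, (t i - t j) * C * (ξs / ξ) ^ p := by
    refine norm_integral_le_of_norm_le hdom ?_
    refine (ae_restrict_iff' measurableSet_Ioi).2 (Filter.Eventually.of_forall fun ξ hξ => ?_)
    rw [Real.norm_eq_abs]
    exact key ξ hξ
  rw [integral_const_mul, htail.2, Real.norm_eq_abs] at hnorm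
  have hp1 : 0 < p - 1 := by linarith
  have hfin : (t i - t j) * C * (ξs / (p - 1)) ≤ (t i - t j) * T := by
    rw [mul_assoc]
    refine mul_le_mul_of_nonneg_left ?_ (by linarith)
    rw [mul_div_assoc', div_le_iff₀ hp1]
    exact hT
  have := neg_abs_le (∫ ξ in Ioi ξs, KI θ t i j ξ)
  linarith

end Pool.Agent.Helper39.PT
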